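import Pool.Agent.H3.X15.Rank
import Pool.Graph.R_seed8.Y700.VC
import Pool.Graph.R_seed8.TH841.SH.Tr
import Pool.Graph.R_pool_sql_team_seeded_620a6dc7.H757_X15.ES.Coord

/-!
# Isomorphic curves have isomorphic Tate-Shafarevich groups; the short and the minimal equations
-/

set_option autoImplicit false
set_option linter.unusedVariables false

namespace Pool.Agent.H3.S15

open WeierstrassCurve
open Pool.Agent.TH841.SH.D
open Pool.Agent.Y700 (VR)

/-- a natural isomorphism of the groups of points -/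
structure NI (W W' : WeierstrassCurve ℚ) where
  e : ∀ (L : Type) [Field L] [Algebra ℚ L], Pt W L ≃+ Pt W' L
  nat : ∀ (F L : Type) [Field F] [Field L] [Algebra ℚ F] [Algebra ℚ L] (φ : F →ₐ[ℚ] L) (P : Pt W F),
    act W' φ (e F P) = e L (act W φ P)

namespace NI

variable {W W' : WeierstrassCurve ℚ}

/-- the inverse -/
noncomputable def symm (h : NI W W') : NI W' W where
  e L _ _ := (h.e L).symm
  nat F L _ _ _ _ φ P := by
    apply (h.e L).injective
    rw [← h.nat, AddEquiv.apply_symm_apply, AddEquiv.apply_symm_apply]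

/-- the cochains -/
noncomputable def eC (h : NI W W') : Coch W ≃+ Coch W' where
  toFun f σ := h.e _ (f σ)
  invFun f σ := (h.e _).symm (f σ)
  left_inv f := funext fun σ => (h.e _).symm_apply_apply _
  right_inv f := funext fun σ => (h.e _).apply_symm_apply _
  map_add' f g := funext fun σ => map_add _ _ _

theorem coc (h : NI W W') {f : Coch W} (hf : IsCoc W f) : IsCoc W' (h.eC f) := by
  refine ⟨hf.1.comp _, fun σ τ => ?_⟩
  change h.e _ (f (σ * τ)) = h.e _ (f σ) + act W' σ.toAlgHom (h.e _ (f τ))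
  rw [hf.2, map_add, h.nat]

theorem cob' (h : NI W W') {f : Coch W} (hf : IsCob W f) : IsCob W' (h.eC f) := by
  obtain ⟨P, hP⟩ := hf
  refine ⟨h.e _ P, fun σ => ?_⟩
  change h.e _ (f σ) = act W' σ.toAlgHom (h.e _ P) - h.e _ P
  rw [hP, map_sub, h.nat]

theorem loc (h : NI W W') {K : Type} [Field K] [Algebra ℚ K] {f : Coch W} (hf : LocTriv W K f) :
    LocTriv W' K (h.eC f) := by
  intro ι
  obtain ⟨P, hP⟩ := hf ι
  refine ⟨h.e _ P, fun τ σ hτ => ?_⟩
  change act W' ι (h.e _ (f σ)) = act W' (τ.toAlgHom.restrictScalars ℚ) (h.e _ P) - h.e _ P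
  rw [h.nat, hP τ σ hτ, map_sub, h.nat]

theorem sha (h : NI W W') {f : Coch W} (hf : f ∈ shaCoc W) : h.eC f ∈ shaCoc W' :=
  ⟨h.coc hf.1, fun p _ => h.loc (hf.2.1 p), h.loc hf.2.2⟩

/-- the cocycles -/
noncomputable def eS (h : NI W W') : shaCoc W ≃+ shaCoc W' where
  toFun f := ⟨h.eC f.1, h.sha f.2⟩
  invFun f := ⟨h.symm.eC f.1, h.symm.sha f.2⟩
  left_inv f := Subtype.ext (h.eC.symm_apply_apply f.1)
  right_inv f := Subtype.ext (h.eC.apply_symm_apply f.1)
  map_add' f g := Subtype.ext (map_add h.eC f.1 g.1)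

open scoped Classical in
/-- the Tate-Shafarevich groups -/
noncomputable def eSha (h : NI W W') : Sha W ≃+ Sha W' :=
  QuotientAddGroup.congr ((cob W).addSubgroupOf (shaCoc W))
    ((cob W').addSubgroupOf (shaCoc W')) h.eS (by
    ext f
    constructor
    · rintro ⟨g, hg, rfl⟩
      exact h.cob' hg
    · intro hf
      refine ⟨h.eS.symm f, h.symm.cob' hf, h.eS.apply_symm_apply f⟩)

end NI

/-- the isomorphism given by a change of variables -/
noncomputable def niVR {W W' : WeierstrassCurve ℚ} {u r s t : ℚ} (h : VR W W' u r s t)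
    (hD : W'.Δ ≠ 0) : NI W' W where
  e L _ _ := @VR.equiv L _ (Classical.decEq L) _ _ _ _ _ _ (h.map (algebraMap ℚ L)) (by
    change (W'.map (algebraMap ℚ L)).Δ ≠ 0
    rw [WeierstrassCurve.map_Δ]
    exact (map_ne_zero _).2 hD)
  nat F L _ _ _ _ φ P := by
    have hφ : ∀ z : ℚ, φ (algebraMap ℚ F z) = algebraMap ℚ L z := fun z => φ.commutes z
    rcases P with _ | ⟨x, y, hn⟩
    · rfl
    · change Affine.Point.some _ _ _ = Affine.Point.some _ _ _
      congr 1
      · rw [map_add, map_mul, map_pow, hφ, hφ]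
      · rw [map_add, map_add, map_mul, map_mul, map_mul, map_pow, map_pow, hφ, hφ, hφ]

open Pool.Agent.H757_X15 (WD)
open Pool.Agent.H3.X15 (ED)

/-- the minimal equation over `ℚ` -/
abbrev WQ (D : ℤ) : WeierstrassCurve ℚ := (WD D).map (Int.castRingHom ℚ)

theorem vr_ED {D : ℕ} (hD : D % 4 = 1) : VR (ED D) (WQ (D : ℤ)) 6 (15 * D) 3 108 := by
  obtain ⟨k, hk⟩ : ∃ k : ℤ, (D : ℤ) = 4 * k + 1 := ⟨(D : ℤ) / 4, by omega⟩
  have hDk : ((D : ℕ) : ℚ) = 4 * k + 1 := by
    have := congrArg (fun z : ℤ => (z : ℚ)) hk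
    push_cast at this
    exact this
  have a1 := Pool.Agent.H757_X15.EE.Co.c1 (K := ℚ) k
  have a2 := Pool.Agent.H757_X15.EE.Co.c2 (K := ℚ) k
  have a3 := Pool.Agent.H757_X15.EE.Co.c3 (K := ℚ) k
  have a4 := Pool.Agent.H757_X15.EE.Co.c4 (K := ℚ) k
  have a6 := Pool.Agent.H757_X15.EE.Co.c6 (K := ℚ) k
  have b1 : (ED D).a₁ = 0 := rfl
  have b2 : (ED D).a₂ = 0 := rfl
  have b3 : (ED D).a₃ = 0 := rfl
  have b4 : (ED D).a₄ = -12987 * (4 * k + 1) ^ 2 := by
    show ((-12987 * (D : ℤ) ^ 2 : ℤ) : ℚ) = _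
    rw [hk]; push_cast; ring
  have b6 : (ED D).a₆ = -263466 * (4 * k + 1) ^ 3 := by
    show ((-263466 * (D : ℤ) ^ 3 : ℤ) : ℚ) = _
    rw [hk]; push_cast; ring
  unfold WQ
  rw [hk, hDk]
  refine ⟨by norm_num, ?_, ?_, ?_, ?_, ?_⟩
  · rw [a1, b1]; ring
  · rw [a2, b2, b1]; ring
  · rw [a3, b3, b1]; ring
  · rw [a4, b1, b2, b3, b4]; ring
  · rw [a6, b1, b2, b3, b4, b6]; ring

end Pool.Agent.H3.S15
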